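import Mathlib
import Pool.Agent.H699.MX.Defs

set_option autoImplicit false

/-!
Zones where the slack is not small.
-/

open MeasureTheory Set

namespace Pool.Agent.H873.MX.ZON

open Pool.Agent.H699.MX

theorem t_ZON : S_LPR → S_REB → S_ZON := by
  intro hLPR hREB μ a b hμ d
  obtain ⟨M, hM⟩ := hREB μ a b hμ d
  refine ⟨M, fun ξ hξ => ?_⟩
  obtain ⟨q1, hq1, h1⟩ := hM ξ hξ
  obtain ⟨q2, hq2, h2⟩ := hM (ξ / 2) (by positivity)
  have hmin : 0 < min q1 q2 := lt_min hq1 hq2
  refine ⟨min q1 q2 / 2, by positivity, fun n hn S T hT v hv => ?_⟩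
  obtain ⟨hprob, -, -, -, hlo, hhi⟩ := hLPR μ a b hμ n T
  set lo := ext a b n T false with hlo'
  set hi := ext a b n T true with hhi'
  haveI := hprob false
  haveI := hprob true
  have c1 : ∀ (s : Bool) (x : ℝ), (law μ b n T s).real (Ioi x) = 1 - (law μ b n T s).real (Iic x) := by
    intro s x
    haveI := hprob s
    rw [← compl_Iic, probReal_compl_eq_one_sub measurableSet_Iic]
  unfold slack at hv
  constructor
  · rintro ⟨h3, h4⟩
    have e1 : (law μ b n T false).real (Iic v) = 0 := by
      have : law μ b n T false (Iic v) = 0 :=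
        measure_mono_null (fun x (hx : x ≤ v) => show x < lo from lt_of_le_of_lt hx h4) (hlo false)
      rw [measureReal_def, this]; rfl
    have e2 : (law μ b n T true).real (Iic (lo + ξ)) ≤ (law μ b n T true).real (Iic (v + S)) :=
      measureReal_mono (Iic_subset_Iic.2 (by linarith)) (measure_ne_top _ _)
    have e3 := (h1 n hn T hT).1
    rw [c1 false, c1 true, e1] at hv
    have := min_le_left q1 q2
    linarith
  · rintro ⟨h3, h4⟩
    have e1 : (law μ b n T true).real (Ioi (v + S)) = 0 := by
      have : law μ b n T true (Ioi (v + S)) = 0 :=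
        measure_mono_null (Ioi_subset_Ioi (by linarith)) (hhi true)
      rw [measureReal_def, this]; rfl
    have e2 : (law μ b n T false).real (Ici (hi - ξ / 2)) ≤ (law μ b n T false).real (Ioi v) :=
      measureReal_mono (Ici_subset_Ioi.2 (by linarith)) (measure_ne_top _ _)
    have e3 := (h2 n hn T hT).2
    rw [e1] at hv
    have := min_le_right q1 q2
    linarith

end Pool.Agent.H873.MX.ZON
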